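import Pool.Agent.W2helper8.ZQ.Stm

/-!
Piece ZL of project ZQ (helper8): the smoothed Dirichlet series as a truncated line integral.
-/

set_option autoImplicit false

namespace Pool.Agent.W2helper25.ZQ

open Finset Filter Topology MeasureTheory Complex
open Pool.Agent.H306R2 (dv)
open Pool.Agent.W2helper8.ZQ

noncomputable section

/-- the factor at `n` -/
def fa (X c : ℝ) (n : ℕ) (τ : ℝ) : ℂ :=
  Complex.exp (((Real.log X - Real.log n : ℝ) : ℂ) * (c + τ * I) + (c + τ * I) ^ 2) / (c + τ * I)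

/-- the `n`-th term -/
def tm (b u X c : ℝ) (n : ℕ) (τ : ℝ) : ℂ :=
  (((dv b n : ℝ) : ℂ) * (n : ℂ) ^ (-(1 + u * I))) * fa X c n τ

lemma term_eq (b u X c τ : ℝ) (n : ℕ) :
    ((dv b n : ℝ) : ℂ) * (n : ℂ) ^ (-(1 + u * I + (c + τ * I))) *
      (Complex.exp (Real.log X * (c + τ * I) + (c + τ * I) ^ 2) / (c + τ * I)) = tm b u X c n τ := by
  unfold tm fa
  rcases Nat.eq_zero_or_pos n with h0 | h0
  · subst h0
    simp [Pool.Agent.H306R2.dv]
  · have hn : (n : ℂ) ≠ 0 := by exact_mod_cast h0.ne'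
    have h1 : (n : ℂ) ^ (-(1 + u * I + (c + τ * I))) =
        (n : ℂ) ^ (-(1 + u * I)) * Complex.exp (-(Real.log n) * (c + τ * I)) := by
      rw [neg_add, Complex.cpow_add _ _ hn]
      congr 1
      rw [Complex.cpow_def_of_ne_zero hn, Complex.natCast_log]
      congr 1
      ring
    have h2 : Complex.exp (((Real.log X - Real.log n : ℝ) : ℂ) * (c + τ * I) + (c + τ * I) ^ 2) =
        Complex.exp (-(Real.log n) * (c + τ * I)) *
          Complex.exp (Real.log X * (c + τ * I) + (c + τ * I) ^ 2) := by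
      rw [← Complex.exp_add]
      congr 1
      push_cast
      ring
    rw [h1, h2]
    ring

lemma ne0 {c : ℝ} (τ : ℝ) (hc : 0 < c) : (c + τ * I : ℂ) ≠ 0 := by
  intro h
  have := congrArg Complex.re h
  simp at this
  exact hc.ne' this

lemma norm_den {c : ℝ} (τ : ℝ) : c ≤ ‖(c + τ * I : ℂ)‖ := by
  have h := Complex.abs_re_le_norm (c + τ * I : ℂ)
  simp only [add_re, ofReal_re, mul_re, I_re, mul_zero, ofReal_im, I_im, mul_one, sub_self, add_zero] at h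
  exact (le_abs_self c).trans h

lemma norm_exp_eq (y c τ : ℝ) :
    ‖Complex.exp ((y : ℂ) * (c + τ * I) + (c + τ * I) ^ 2)‖ = Real.exp (y * c + c ^ 2) * Real.exp (-τ ^ 2) := by
  rw [Complex.norm_exp, ← Real.exp_add]
  congr 1
  simp [pow_two]
  ring

lemma norm_tm_le (b u X c τ : ℝ) (n : ℕ) (hX : 1 ≤ X) (hc : 0 < c) :
    ‖tm b u X c n τ‖ ≤ (|dv b n| * (n : ℝ) ^ (-(1 + c))) *
      ((X ^ c * Real.exp (c ^ 2) / c) * Real.exp (-τ ^ 2)) := by
  rcases Nat.eq_zero_or_pos n with h0 | h0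
  · subst h0
    simp [tm, Pool.Agent.H306R2.dv]
  · have hn : (0 : ℝ) < n := by exact_mod_cast h0
    have hX0 : 0 < X := by linarith
    unfold tm fa
    rw [norm_mul, norm_mul, norm_div, norm_exp_eq, Complex.norm_real, Real.norm_eq_abs,
      Complex.norm_natCast_cpow_of_pos h0]
    have h1 : (-(1 + (u : ℂ) * I)).re = -1 := by simp
    rw [h1]
    have h2 : Real.exp ((Real.log X - Real.log n) * c + c ^ 2) = X ^ c * (n : ℝ) ^ (-c) * Real.exp (c ^ 2) := by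
      rw [Real.rpow_def_of_pos hX0, Real.rpow_def_of_pos hn, ← Real.exp_add, ← Real.exp_add]
      congr 1
      ring
    have h3 : (n : ℝ) ^ (-(1 + c)) = (n : ℝ) ^ (-1 : ℝ) * (n : ℝ) ^ (-c) := by
      rw [← Real.rpow_add hn]
      congr 1
      ring
    rw [h2, h3]
    have h4 : X ^ c * (n : ℝ) ^ (-c) * Real.exp (c ^ 2) * Real.exp (-τ ^ 2) / ‖(c + τ * I : ℂ)‖ ≤
        X ^ c * (n : ℝ) ^ (-c) * Real.exp (c ^ 2) * Real.exp (-τ ^ 2) / c := by
      refine div_le_div_of_nonneg_left ?_ hc (norm_den τ)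
      positivity
    calc |dv b n| * (n : ℝ) ^ (-1 : ℝ) * (X ^ c * (n : ℝ) ^ (-c) * Real.exp (c ^ 2) * Real.exp (-τ ^ 2) / ‖(c + τ * I : ℂ)‖)
        ≤ |dv b n| * (n : ℝ) ^ (-1 : ℝ) * (X ^ c * (n : ℝ) ^ (-c) * Real.exp (c ^ 2) * Real.exp (-τ ^ 2) / c) := by
          gcongr
      _ = _ := by ring

lemma gauss_int : Integrable (fun τ : ℝ => Real.exp (-τ ^ 2)) := by
  have h := integrable_exp_neg_mul_sq (b := 1) one_pos
  refine h.congr (Eventually.of_forall fun τ => ?_)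
  show Real.exp (-1 * τ ^ 2) = _
  congr 1
  ring

lemma gauss_val : ∫ τ : ℝ, Real.exp (-τ ^ 2) = Real.sqrt Real.pi := by
  have h := integral_gaussian 1
  rw [div_one] at h
  rw [← h]
  congr 1
  ext τ
  congr 1
  ring

lemma tail_pt {H τ : ℝ} (hH : 1 ≤ H) (hτ : τ ∉ Set.Ioc (-H) H) :
    Real.exp (-τ ^ 2) ≤ Real.exp (-(H ^ 2)) * (Real.exp (-(τ - H) ^ 2) + Real.exp (-(τ + H) ^ 2)) := by
  rw [Set.mem_Ioc, not_and_or, not_lt, not_le] at hτ
  rw [mul_add, ← Real.exp_add, ← Real.exp_add]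
  rcases hτ with h | h
  · have h1 : -τ ^ 2 ≤ -(H ^ 2) + -(τ + H) ^ 2 := by nlinarith
    have h2 := Real.exp_le_exp.2 h1
    have h3 := Real.exp_pos (-(H ^ 2) + -(τ - H) ^ 2)
    linarith
  · have h1 : -τ ^ 2 ≤ -(H ^ 2) + -(τ - H) ^ 2 := by nlinarith
    have h2 := Real.exp_le_exp.2 h1
    have h3 := Real.exp_pos (-(H ^ 2) + -(τ + H) ^ 2)
    linarith

lemma tail_int {H : ℝ} (hH : 1 ≤ H) :
    ∫ τ in (Set.Ioc (-H) H)ᶜ, Real.exp (-τ ^ 2) ≤ Real.exp (-(H ^ 2)) * (2 * Real.sqrt Real.pi) := by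
  have i1 : Integrable (fun τ : ℝ => Real.exp (-(τ - H) ^ 2)) := gauss_int.comp_sub_right H
  have i2 : Integrable (fun τ : ℝ => Real.exp (-(τ + H) ^ 2)) := gauss_int.comp_add_right H
  have i3 : Integrable (fun τ : ℝ => Real.exp (-(H ^ 2)) *
      (Real.exp (-(τ - H) ^ 2) + Real.exp (-(τ + H) ^ 2))) := (i1.add i2).const_mul _
  calc ∫ τ in (Set.Ioc (-H) H)ᶜ, Real.exp (-τ ^ 2)
      ≤ ∫ τ in (Set.Ioc (-H) H)ᶜ, Real.exp (-(H ^ 2)) *
          (Real.exp (-(τ - H) ^ 2) + Real.exp (-(τ + H) ^ 2)) := by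
        refine setIntegral_mono_on gauss_int.integrableOn i3.integrableOn measurableSet_Ioc.compl ?_
        intro τ hτ
        exact tail_pt hH hτ
    _ ≤ ∫ τ, Real.exp (-(H ^ 2)) * (Real.exp (-(τ - H) ^ 2) + Real.exp (-(τ + H) ^ 2)) := by
        refine setIntegral_le_integral i3 (Eventually.of_forall fun τ => ?_)
        show 0 ≤ Real.exp (-(H ^ 2)) * (Real.exp (-(τ - H) ^ 2) + Real.exp (-(τ + H) ^ 2))
        positivity
    _ = _ := by
        rw [integral_const_mul, integral_add i1 i2]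
        rw [integral_sub_right_eq_self (fun τ : ℝ => Real.exp (-τ ^ 2)) H,
          integral_add_right_eq_self (fun τ : ℝ => Real.exp (-τ ^ 2)) H, gauss_val]
        ring

/-- the integrand -/
def FF (b u X c τ : ℝ) : ℂ := LS b (1 + u * I + (c + τ * I)) *
      (Complex.exp (Real.log X * (c + τ * I) + (c + τ * I) ^ 2) / (c + τ * I))

lemma FF_eq (b u X c τ : ℝ) : FF b u X c τ = ∑' n : ℕ, tm b u X c n τ := by
  unfold FF LS
  rw [← tsum_mul_right]
  exact tsum_congr fun n => term_eq b u X c τ n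

lemma FF_cont (h2 : S_ZC2) (b u X : ℝ) {c : ℝ} (hc : 0 < c) : Continuous (FF b u X c) := by
  unfold FF
  refine Continuous.mul ?_ (Continuous.div (by fun_prop) (by fun_prop) (fun τ => ne0 τ hc))
  have h3 := (h2 b).2.1.continuousOn
  refine h3.comp_continuous (by fun_prop) fun τ => ?_
  show 1 < (1 + (u : ℂ) * I + (c + τ * I)).re
  simp
  exact hc

lemma FF_norm (h2 : S_ZC2) (b u : ℝ) {X c : ℝ} (hX : 1 ≤ X) (hc : 0 < c) (hc1 : c ≤ 1) (τ : ℝ) :
    ‖FF b u X c τ‖ ≤ ((2 / c) ^ |b| * (X ^ c * Real.exp (c ^ 2) / c)) * Real.exp (-τ ^ 2) := by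
  obtain ⟨h3, h4⟩ := (h2 b).2.2 c hc hc1
  rw [FF_eq]
  have h5 : Summable (fun n : ℕ => (|dv b n| * (n : ℝ) ^ (-(1 + c))) *
      ((X ^ c * Real.exp (c ^ 2) / c) * Real.exp (-τ ^ 2))) := h3.mul_right _
  have h6 : Summable (fun n : ℕ => ‖tm b u X c n τ‖) :=
    Summable.of_nonneg_of_le (fun n => norm_nonneg _) (fun n => norm_tm_le b u X c τ n hX hc) h5
  refine (norm_tsum_le_tsum_norm h6).trans ?_
  refine (h6.tsum_le_tsum (fun n => norm_tm_le b u X c τ n hX hc) h5).trans ?_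
  rw [tsum_mul_right, mul_assoc]
  have hX0 : 0 < X := by linarith
  exact mul_le_mul_of_nonneg_right h4 (by positivity)

lemma FF_integrable (h2 : S_ZC2) (b u : ℝ) {X c : ℝ} (hX : 1 ≤ X) (hc : 0 < c) (hc1 : c ≤ 1) :
    Integrable (FF b u X c) := by
  refine Integrable.mono' (gauss_int.const_mul ((2 / c) ^ |b| * (X ^ c * Real.exp (c ^ 2) / c)))
    (FF_cont h2 b u X hc).aestronglyMeasurable (Eventually.of_forall fun τ => ?_)
  exact FF_norm h2 b u hX hc hc1 τ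

lemma tm_integrable (h1 : S_VA) (b u X : ℝ) {c : ℝ} (hc : 0 < c) (n : ℕ) :
    Integrable (tm b u X c n) := by
  have h := (h1.1 c (Real.log X - Real.log n) hc).1
  exact h.const_mul _

lemma tm_integral (h1 : S_VA) (b u X : ℝ) {c : ℝ} (hc : 0 < c) (n : ℕ) :
    (1 / (2 * Real.pi : ℂ)) * ∫ τ : ℝ, tm b u X c n τ =
      ((dv b n * vv (Real.log X - Real.log n) : ℝ) : ℂ) * (n : ℂ) ^ (-(1 + u * I)) := by
  have h := (h1.1 c (Real.log X - Real.log n) hc).2
  unfold tm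
  rw [integral_const_mul]
  have h3 : (∫ τ : ℝ, fa X c n τ) = ∫ τ : ℝ, Complex.exp (((Real.log X - Real.log n : ℝ) : ℂ) * (c + τ * I) + (c + τ * I) ^ 2) / (c + τ * I) := rfl
  rw [h3]
  push_cast at h ⊢
  rw [← h]
  ring

lemma FF_whole (h1 : S_VA) (h2 : S_ZC2) (b u : ℝ) {X c : ℝ} (hX : 1 ≤ X) (hc : 0 < c) (hc1 : c ≤ 1) :
    (1 / (2 * Real.pi : ℂ)) * ∫ τ : ℝ, FF b u X c τ = SM b X u := by
  obtain ⟨h3, h4⟩ := (h2 b).2.2 c hc hc1
  have hX0 : 0 < X := by linarith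
  have hs : Summable (fun n : ℕ => ∫ τ : ℝ, ‖tm b u X c n τ‖) := by
    refine Summable.of_nonneg_of_le (fun n => integral_nonneg fun τ => norm_nonneg _) (fun n => ?_)
      (h3.mul_right ((X ^ c * Real.exp (c ^ 2) / c) * Real.sqrt Real.pi))
    calc ∫ τ : ℝ, ‖tm b u X c n τ‖ ≤ ∫ τ : ℝ, (|dv b n| * (n : ℝ) ^ (-(1 + c))) *
          ((X ^ c * Real.exp (c ^ 2) / c) * Real.exp (-τ ^ 2)) := by
          refine integral_mono (tm_integrable h1 b u X hc n).norm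
            ((gauss_int.const_mul _).const_mul _) fun τ => norm_tm_le b u X c τ n hX hc
      _ = _ := by rw [integral_const_mul, integral_const_mul, gauss_val]
  have hH := hasSum_integral_of_summable_integral_norm (fun n => tm_integrable h1 b u X hc n) hs
  have h5 : (∫ τ : ℝ, FF b u X c τ) = ∑' n : ℕ, ∫ τ : ℝ, tm b u X c n τ := by
    rw [hH.tsum_eq]
    exact integral_congr_ae (Eventually.of_forall fun τ => FF_eq b u X c τ)
  rw [h5, ← tsum_mul_left]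
  unfold SM
  exact tsum_congr fun n => tm_integral h1 b u X hc n

/-- Piece ZL. -/
theorem p_zl (h1 : S_VA) (h2 : S_ZC2) : S_ZL := by
  intro b u X c H hX hc hc1 hH
  have hX0 : 0 < X := by linarith
  have hFi := FF_integrable h2 b u hX hc hc1
  have e1 : (∫ τ in (-H)..H, LS b (1 + u * I + (c + τ * I)) *
      (Complex.exp (Real.log X * (c + τ * I) + (c + τ * I) ^ 2) / (c + τ * I))) =
      ∫ τ in Set.Ioc (-H) H, FF b u X c τ := by
    rw [intervalIntegral.integral_of_le (by linarith)]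
    rfl
  rw [e1, ← FF_whole h1 h2 b u hX hc hc1, ← mul_sub]
  have e2 : (∫ τ : ℝ, FF b u X c τ) - ∫ τ in Set.Ioc (-H) H, FF b u X c τ =
      ∫ τ in (Set.Ioc (-H) H)ᶜ, FF b u X c τ := by
    rw [← integral_add_compl measurableSet_Ioc hFi]
    ring
  rw [e2, norm_mul]
  set K : ℝ := (2 / c) ^ |b| * (X ^ c * Real.exp (c ^ 2) / c) with hK
  have hK0 : 0 ≤ K := by positivity
  have e3 : ‖∫ τ in (Set.Ioc (-H) H)ᶜ, FF b u X c τ‖ ≤ K * (Real.exp (-(H ^ 2)) * (2 * Real.sqrt Real.pi)) := by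
    calc ‖∫ τ in (Set.Ioc (-H) H)ᶜ, FF b u X c τ‖ ≤ ∫ τ in (Set.Ioc (-H) H)ᶜ, K * Real.exp (-τ ^ 2) := by
          refine norm_integral_le_of_norm_le (gauss_int.const_mul K).integrableOn
            (Eventually.of_forall fun τ => ?_)
          exact FF_norm h2 b u hX hc hc1 τ
      _ = K * ∫ τ in (Set.Ioc (-H) H)ᶜ, Real.exp (-τ ^ 2) := integral_const_mul _ _
      _ ≤ _ := mul_le_mul_of_nonneg_left (tail_int hH) hK0
  have hpi := Real.pi_gt_three
  have e4 : ‖(1 / (2 * Real.pi : ℂ))‖ = 1 / (2 * Real.pi) := by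
    rw [norm_div, norm_one, norm_mul]
    simp [abs_of_pos Real.pi_pos]
  rw [e4]
  have e5 : Real.sqrt Real.pi ≤ Real.pi := by
    rw [Real.sqrt_le_left (by linarith)]
    nlinarith
  have e6 : K ≤ 10 * (2 / c) ^ |b| * X ^ c / c := by
    rw [hK]
    have h7 : Real.exp (c ^ 2) ≤ 10 := by
      have h8 : Real.exp (c ^ 2) ≤ Real.exp 1 := Real.exp_le_exp.2 (by nlinarith)
      have h9 := Real.exp_one_lt_d9
      linarith
    calc (2 / c) ^ |b| * (X ^ c * Real.exp (c ^ 2) / c) ≤ (2 / c) ^ |b| * (X ^ c * 10 / c) := by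
          gcongr
      _ = _ := by ring
  have e7 : 0 < Real.exp (-(H ^ 2)) := Real.exp_pos _
  calc 1 / (2 * Real.pi) * ‖∫ τ in (Set.Ioc (-H) H)ᶜ, FF b u X c τ‖
      ≤ 1 / (2 * Real.pi) * (K * (Real.exp (-(H ^ 2)) * (2 * Real.sqrt Real.pi))) := by
        gcongr
    _ ≤ 1 / (2 * Real.pi) * (K * (Real.exp (-(H ^ 2)) * (2 * Real.pi))) := by
        gcongr
    _ = K * Real.exp (-(H ^ 2)) := by
        field_simp
    _ ≤ _ := mul_le_mul_of_nonneg_right e6 e7.le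

end

end Pool.Agent.W2helper25.ZQ
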